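import Pool.Agent.Y434.CI.Prd

/-! Project CI (helper522): isotopies from the level preserving theorem (helper434). -/

set_option autoImplicit false

open Set Filter Topology Function
open scoped Manifold ContDiff

noncomputable section

namespace Pool.Agent.Y434.CI

open Pool.Agent.Y522 Pool.Agent.Y522.NA

section

variable {k : ℕ} {X : Type} [TopologicalSpace X] [ChartedSpace (E k) X] [IsManifold (𝓡 k) ∞ X]

theorem smooth_mk : ContMDiff ((𝓘(ℝ, ℝ)).prod (𝓡 k)) (𝓡 (k + 1)) ∞ (mk : ℝ × X → Pr X) := by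
  intro p
  obtain ⟨χ, hχe⟩ : ∃ χ, χ = chartAt (E k) p.2 := ⟨_, rfl⟩
  have hps : p.2 ∈ χ.source := by rw [hχe]; exact mem_chart_source _ _
  have hχ : χ ∈ IsManifold.maximalAtlas (𝓡 k) ∞ X := by
    rw [hχe]; exact IsManifold.chart_mem_maximalAtlas _
  have hch : (ch χ : OpenPartialHomeomorph (Pr X) (E (k + 1))) ∈
      IsManifold.maximalAtlas (𝓡 (k + 1)) ∞ (Pr X) := by
    rw [hχe]; exact IsManifold.chart_mem_maximalAtlas (mk p)
  have h2 : ContMDiffAt ((𝓘(ℝ, ℝ)).prod (𝓡 k)) (𝓡 (k + 1)) ∞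
      (fun q : ℝ × X => (cn q.1 (χ q.2) : E (k + 1))) p := by
    have h3 : ContMDiffAt (𝓡 k) (𝓡 k) ∞ χ p.2 :=
      (contMDiffOn_of_mem_maximalAtlas hχ).contMDiffAt (χ.open_source.mem_nhds hps)
    have h4 : ContMDiffAt ((𝓘(ℝ, ℝ)).prod (𝓡 k)) (𝓡 k) ∞ (fun q : ℝ × X => χ q.2) p :=
      h3.comp p contMDiffAt_snd
    have h5 := (contMDiffAt_fst (I := 𝓘(ℝ, ℝ)) (J := 𝓡 k) (n := ∞) (p := p)).prodMk_space h4
    exact (contDiff_cn (k := k)).contMDiff.contMDiffAt.comp p h5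
  have hz : ch χ (mk p) ∈ (ch χ : OpenPartialHomeomorph (Pr X) (E (k + 1))).target :=
    (ch χ).map_source ((ch_source χ _).2 hps)
  have h1 : ContMDiffAt (𝓡 (k + 1)) (𝓡 (k + 1)) ∞ (ch χ).symm (ch χ (mk p)) :=
    (contMDiffOn_symm_of_mem_maximalAtlas hch).contMDiffAt ((ch χ).open_target.mem_nhds hz)
  have h6 := ContMDiffAt.comp p (f := fun q : ℝ × X => (cn q.1 (χ q.2) : E (k + 1))) h1 h2
  refine h6.congr_of_eventuallyEq ?_
  have h7 : ∀ᶠ q : ℝ × X in 𝓝 p, q.2 ∈ χ.source :=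
    continuous_snd.continuousAt (χ.open_source.mem_nhds hps)
  filter_upwards [h7] with q hq
  change mk q = (ch χ).symm (cn q.1 (χ q.2))
  rw [ch_symm]
  simp [χ.left_inv hq]

theorem smooth_un : ContMDiff (𝓡 (k + 1)) ((𝓘(ℝ, ℝ)).prod (𝓡 k)) ∞ (un : Pr X → ℝ × X) := by
  intro p
  obtain ⟨χ, hχe⟩ : ∃ χ, χ = chartAt (E k) (un p).2 := ⟨_, rfl⟩
  have hps : (un p).2 ∈ χ.source := by rw [hχe]; exact mem_chart_source _ _
  have hχ : χ ∈ IsManifold.maximalAtlas (𝓡 k) ∞ X := by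
    rw [hχe]; exact IsManifold.chart_mem_maximalAtlas _
  have hch : (ch χ : OpenPartialHomeomorph (Pr X) (E (k + 1))) ∈
      IsManifold.maximalAtlas (𝓡 (k + 1)) ∞ (Pr X) := by
    rw [hχe]; exact IsManifold.chart_mem_maximalAtlas p
  have hps' : p ∈ (ch χ : OpenPartialHomeomorph (Pr X) (E (k + 1))).source :=
    (ch_source χ p).2 hps
  have h1 : ContMDiffAt (𝓡 (k + 1)) (𝓡 (k + 1)) ∞ (ch χ) p :=
    (contMDiffOn_of_mem_maximalAtlas hch).contMDiffAt ((ch χ).open_source.mem_nhds hps')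
  have h2 : ContMDiffAt (𝓡 (k + 1)) 𝓘(ℝ, ℝ) ∞ (fun q : Pr X => (ch χ q) 0) p :=
    (contDiff_hd (k := k)).contMDiff.contMDiffAt.comp p h1
  have h3 : ContMDiffAt (𝓡 (k + 1)) (𝓡 k) ∞ (fun q : Pr X => (tl (ch χ q) : E k)) p :=
    (tl (m := k)).contDiff.contMDiff.contMDiffAt.comp p h1
  have hy : (tl (ch χ p) : E k) ∈ χ.target := (ch_target χ _).1 ((ch χ).map_source hps')
  have h4 : ContMDiffAt (𝓡 k) (𝓡 k) ∞ χ.symm (tl (ch χ p)) :=
    (contMDiffOn_symm_of_mem_maximalAtlas hχ).contMDiffAt (χ.open_target.mem_nhds hy)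
  have h5 := h2.prodMk (ContMDiffAt.comp p (f := fun q : Pr X => (tl (ch χ q) : E k)) h4 h3)
  refine h5.congr_of_eventuallyEq ?_
  filter_upwards [(ch χ).open_source.mem_nhds hps'] with q hq
  have h6 : (ch χ).symm (ch χ q) = q := (ch χ).left_inv hq
  rw [ch_symm] at h6
  exact (congrArg un h6).symm

end

/-- globally invertible smooth maps are local diffeomorphisms -/
theorem LD_of_inv {n : ℕ} {M N : Type} [TopologicalSpace M] [ChartedSpace (E n) M]
    [TopologicalSpace N] [ChartedSpace (E n) N] {f : M → N} {g : N → M}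
    (hf : ContMDiff (𝓡 n) (𝓡 n) ∞ f) (hg : ContMDiff (𝓡 n) (𝓡 n) ∞ g)
    (hgf : ∀ x, g (f x) = x) (hfg : ∀ y, f (g y) = y) (x : M) : LD n f x :=
  ⟨{ toFun := f
     invFun := g
     source := univ
     target := univ
     map_source' := fun _ _ => mem_univ _
     map_target' := fun _ _ => mem_univ _
     left_inv' := fun x _ => hgf x
     right_inv' := fun y _ => hfg y
     open_source := isOpen_univ
     open_target := isOpen_univ
     contMDiffOn_toFun := hf.contMDiffOn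
     contMDiffOn_invFun := hg.contMDiffOn }, mem_univ _, fun _ _ => rfl⟩

section

variable {k : ℕ} {X Y : Type} [TopologicalSpace X] [ChartedSpace (E k) X] [IsManifold (𝓡 k) ∞ X]
  [TopologicalSpace Y] [ChartedSpace (E k) Y] [IsManifold (𝓡 k) ∞ Y]

/-- the level preserving map of a family -/
def lft (F : ℝ × X → Y) (p : Pr X) : Pr Y := mk ((un p).1, F (un p))

theorem smooth_lft {F : ℝ × X → Y} (hF : ContMDiff ((𝓘(ℝ, ℝ)).prod (𝓡 k)) (𝓡 k) ∞ F) :
    ContMDiff (𝓡 (k + 1)) (𝓡 (k + 1)) ∞ (lft F) := by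
  have h1 : ContMDiff ((𝓘(ℝ, ℝ)).prod (𝓡 k)) ((𝓘(ℝ, ℝ)).prod (𝓡 k)) ∞
      (fun q : ℝ × X => (q.1, F q)) := contMDiff_fst.prodMk hF
  exact (smooth_mk (X := Y)).comp (h1.comp (smooth_un (X := X)))

theorem smooth_hgt : ContMDiff (𝓡 (k + 1)) 𝓘(ℝ, ℝ) ∞ (fun p : Pr X => (un p).1) :=
  contMDiff_fst.comp (smooth_un (X := X))

/-- the inclusion of a level -/
theorem smooth_lev (t : ℝ) : ContMDiff (𝓡 k) (𝓡 (k + 1)) ∞ (fun x : X => mk (t, x)) :=
  (smooth_mk (X := X)).comp (contMDiff_const.prodMk contMDiff_id)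

theorem smooth_lin (x : X) : ContMDiff 𝓘(ℝ, ℝ) (𝓡 (k + 1)) ∞ (fun t : ℝ => mk (t, x)) :=
  (smooth_mk (X := X)).comp (contMDiff_id.prodMk contMDiff_const)

theorem smooth_snd : ContMDiff (𝓡 (k + 1)) (𝓡 k) ∞ (fun p : Pr X => (un p).2) :=
  contMDiff_snd.comp (smooth_un (X := X))

/-- the slices of a level preserving bijective local diffeomorphism -/
theorem LD_slice {F : Pr X → Pr Y} (hb : Bijective F) (hF : ∀ p, LD (k + 1) F p)
    (hl : ∀ p, (un (F p)).1 = (un p).1) (t : ℝ) (x : X) :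
    LD k (fun x => (un (F (mk (t, x)))).2) x := by
  obtain ⟨G, hG⟩ := hb.2.hasRightInverse
  have hG' : ∀ p, G (F p) = p := fun p => hb.1 (hG (F p))
  have hGs : ContMDiff (𝓡 (k + 1)) (𝓡 (k + 1)) ∞ G := fun y =>
    (LD.inverse_bij hb hF hG' y).contMDiffAt
  have hFs : ContMDiff (𝓡 (k + 1)) (𝓡 (k + 1)) ∞ F := fun y => (hF y).contMDiffAt
  have hlG : ∀ q, (un (G q)).1 = (un q).1 := by
    intro q
    have := hl (G q)
    rw [hG q] at this
    exact this.symm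
  refine LD_of_inv (g := fun y => (un (G (mk (t, y)))).2) ?_ ?_ ?_ ?_ x
  · exact (smooth_snd (X := Y)).comp (hFs.comp (smooth_lev t))
  · exact (smooth_snd (X := X)).comp (hGs.comp (smooth_lev t))
  · intro x
    have h1 : mk (t, (un (F (mk (t, x)))).2) = F (mk (t, x)) := by
      apply un_inj
      refine Prod.ext ?_ rfl
      exact (hl (mk (t, x))).symm
    change (un (G (mk (t, (un (F (mk (t, x)))).2)))).2 = x
    rw [h1, hG']
    rfl
  · intro y
    have h1 : mk (t, (un (G (mk (t, y)))).2) = G (mk (t, y)) := by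
      apply un_inj
      refine Prod.ext ?_ rfl
      exact (hlG (mk (t, y))).symm
    change (un (F (mk (t, (un (G (mk (t, y)))).2)))).2 = y
    rw [h1, hG]
    rfl

/-- a constant family of diffeomorphisms -/
theorem LD_const {g : X → Y} (hb : Bijective g) (hg : ∀ x, LD k g x) (p : Pr X) :
    LD (k + 1) (lft (fun q : ℝ × X => g q.2)) p := by
  obtain ⟨h, hh⟩ := hb.2.hasRightInverse
  have hh' : ∀ p, h (g p) = p := fun p => hb.1 (hh (g p))
  have hs : ContMDiff (𝓡 k) (𝓡 k) ∞ h := fun y => (LD.inverse_bij hb hg hh' y).contMDiffAt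
  have gs : ContMDiff (𝓡 k) (𝓡 k) ∞ g := fun y => (hg y).contMDiffAt
  refine LD_of_inv (g := lft (fun q : ℝ × Y => h q.2)) (smooth_lft (gs.comp contMDiff_snd))
    (smooth_lft (hs.comp contMDiff_snd)) ?_ ?_ p
  · intro x
    apply un_inj
    refine Prod.ext rfl ?_
    exact hh' _
  · intro x
    apply un_inj
    refine Prod.ext rfl ?_
    exact hh _

end

end Pool.Agent.Y434.CI
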