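import Pool.Agent.Y434.CI.Coi

/-! Project CI (helper522): isotopies from the level preserving theorem (helper434). -/

set_option autoImplicit false

open Set Filter Topology Function
open scoped Manifold ContDiff

noncomputable section

namespace Pool.Agent.Y434.CI

open Pool.Agent.Y522 Pool.Agent.Y522.NA

theorem rk {U V W Z R : Type*} [AddCommGroup U] [Module ℝ U] [AddCommGroup V] [Module ℝ V]
    [AddCommGroup W] [Module ℝ W] [AddCommGroup Z] [Module ℝ Z] [AddCommGroup R] [Module ℝ R]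
    [FiniteDimensional ℝ V] (A : U →ₗ[ℝ] V) (J : Z →ₗ[ℝ] U) (S : V →ₗ[ℝ] W) (T : V →ₗ[ℝ] R)
    (v : U) (hT : ∀ z, T (A (J z)) = 0) (hv : T (A v) ≠ 0) :
    Module.finrank ℝ (LinearMap.range (S.comp (A.comp J))) + 1 ≤
      Module.finrank ℝ (LinearMap.range A) := by
  have h1 : Module.finrank ℝ (LinearMap.range (S.comp (A.comp J))) ≤
      Module.finrank ℝ (LinearMap.range (A.comp J)) := by
    rw [LinearMap.range_comp]
    exact Submodule.finrank_map_le _ _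
  have h2 : LinearMap.range (A.comp J) < LinearMap.range A := by
    refine lt_of_le_of_ne (LinearMap.range_comp_le_range _ _) fun he => hv ?_
    have h3 : A v ∈ LinearMap.range (A.comp J) := he ▸ LinearMap.mem_range_self A v
    obtain ⟨z, hz⟩ := h3
    rw [← hz]
    exact hT z
  have h3 := Submodule.finrank_lt_finrank_of_lt h2
  omega

/-- the rank -/
def rkn (a b : ℕ) (L : E a →L[ℝ] E b) : ℕ := Module.finrank ℝ (LinearMap.range L.toLinearMap)

section

variable {k : ℕ} {X Y : Type} [TopologicalSpace X] [ChartedSpace (E k) X] [IsManifold (𝓡 k) ∞ X]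
  [TopologicalSpace Y] [ChartedSpace (E k) Y] [IsManifold (𝓡 k) ∞ Y]

theorem inj_lft {F : ℝ × X → Y} (hb : ∀ t, Bijective fun x => F (t, x)) (t t' : ℝ) (x x' : X)
    (h : lft F (mk (t, x)) = lft F (mk (t', x'))) : (mk (t, x) : Pr X) = mk (t', x') := by
  have h1 : t = t' := congrArg (fun r : Pr Y => (un r).1) h
  subst h1
  have h2 : F (t, x) = F (t, x') := congrArg (fun r : Pr Y => (un r).2) h
  have h3 : x = x' := (hb t).1 h2
  rw [h3]

theorem bij_lft {F : ℝ × X → Y} (hb : ∀ t, Bijective fun x => F (t, x)) : Bijective (lft F) := by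
  constructor
  · intro p q hpq
    exact inj_lft hb (un p).1 (un q).1 (un p).2 (un q).2 hpq
  · intro q
    obtain ⟨x, hx⟩ := (hb (un q).1).2 (un q).2
    refine ⟨mk ((un q).1, x), ?_⟩
    apply un_inj
    exact Prod.ext rfl hx

theorem mf_hgt (p : Pr X) :
    mfderiv (𝓡 (k + 1)) 𝓘(ℝ, ℝ) (fun p : Pr X => (un p).1) p ≠ 0 := by
  intro h0
  have h1 : MDifferentiableAt (𝓡 (k + 1)) 𝓘(ℝ, ℝ) (fun p : Pr X => (un p).1) p :=
    (smooth_hgt (X := X) (k := k)).mdifferentiableAt (by simp)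
  have h2 : MDifferentiableAt 𝓘(ℝ, ℝ) (𝓡 (k + 1)) (fun t : ℝ => mk (t, (un p).2)) (un p).1 :=
    (smooth_lin (X := X) (k := k) (un p).2).mdifferentiableAt (by simp)
  obtain ⟨T, hT⟩ : ∃ T : E (k + 1) →L[ℝ] ℝ,
      T = mfderiv (𝓡 (k + 1)) 𝓘(ℝ, ℝ) (fun p : Pr X => (un p).1) p := ⟨_, rfl⟩
  obtain ⟨V, hV⟩ : ∃ V : ℝ →L[ℝ] E (k + 1),
      V = mfderiv 𝓘(ℝ, ℝ) (𝓡 (k + 1)) (fun t : ℝ => mk (t, (un p).2)) (un p).1 := ⟨_, rfl⟩
  have g1 : HasMFDerivAt (𝓡 (k + 1)) 𝓘(ℝ, ℝ) (fun p : Pr X => (un p).1)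
      (mk ((un p).1, (un p).2)) T := by
    rw [hT]; exact h1.hasMFDerivAt
  have g2 : HasMFDerivAt 𝓘(ℝ, ℝ) (𝓡 (k + 1)) (fun t : ℝ => mk (t, (un p).2)) (un p).1 V := by
    rw [hV]; exact h2.hasMFDerivAt
  have g3 : HasMFDerivAt 𝓘(ℝ, ℝ) 𝓘(ℝ, ℝ) (fun t : ℝ => t) (un p).1 (T.comp V) :=
    HasMFDerivAt.comp (un p).1 g1 g2
  have g4 : T.comp V = ContinuousLinearMap.id ℝ ℝ :=
    hasMFDerivAt_unique g3 (hasMFDerivAt_id _)
  have h5 := congrArg (fun L : ℝ →L[ℝ] ℝ => L 1) g4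
  have h6 : T = 0 := hT.trans h0
  rw [h6] at h5
  exact zero_ne_one (α := ℝ) h5

theorem mf_rank {F : ℝ × X → Y} (hF : ContMDiff ((𝓘(ℝ, ℝ)).prod (𝓡 k)) (𝓡 k) ∞ F) (t : ℝ)
    (x : X) : Module.finrank ℝ
      (LinearMap.range (mfderiv (𝓡 k) (𝓡 k) (fun x => F (t, x)) x).toLinearMap) + 1 ≤
    Module.finrank ℝ
      (LinearMap.range (mfderiv (𝓡 (k + 1)) (𝓡 (k + 1)) (lft F) (mk (t, x))).toLinearMap) := by
  have hA : MDifferentiableAt (𝓡 (k + 1)) (𝓡 (k + 1)) (lft F) (mk (t, x)) :=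
    (smooth_lft hF).mdifferentiableAt (by simp)
  have hJ : MDifferentiableAt (𝓡 k) (𝓡 (k + 1)) (fun x : X => mk (t, x)) x :=
    (smooth_lev t).mdifferentiableAt (by simp)
  have hS : MDifferentiableAt (𝓡 (k + 1)) (𝓡 k) (fun q : Pr Y => (un q).2) (lft F (mk (t, x))) :=
    smooth_snd.mdifferentiableAt (by simp)
  have hT : MDifferentiableAt (𝓡 (k + 1)) 𝓘(ℝ, ℝ) (fun q : Pr Y => (un q).1)
      (lft F (mk (t, x))) := smooth_hgt.mdifferentiableAt (by simp)
  have hV : MDifferentiableAt 𝓘(ℝ, ℝ) (𝓡 (k + 1)) (fun s : ℝ => mk (s, x)) t :=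
    (smooth_lin x).mdifferentiableAt (by simp)
  obtain ⟨A, gA, eA⟩ : ∃ A : E (k + 1) →L[ℝ] E (k + 1),
      HasMFDerivAt (𝓡 (k + 1)) (𝓡 (k + 1)) (lft F) (mk (t, x)) A ∧
      mfderiv (𝓡 (k + 1)) (𝓡 (k + 1)) (lft F) (mk (t, x)) = A := ⟨_, hA.hasMFDerivAt, rfl⟩
  obtain ⟨J, gJ⟩ : ∃ J : E k →L[ℝ] E (k + 1),
      HasMFDerivAt (𝓡 k) (𝓡 (k + 1)) (fun x : X => mk (t, x)) x J := ⟨_, hJ.hasMFDerivAt⟩
  obtain ⟨S, gS⟩ : ∃ S : E (k + 1) →L[ℝ] E k,
      HasMFDerivAt (𝓡 (k + 1)) (𝓡 k) (fun q : Pr Y => (un q).2) (lft F (mk (t, x))) S :=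
    ⟨_, hS.hasMFDerivAt⟩
  obtain ⟨T, gT⟩ : ∃ T : E (k + 1) →L[ℝ] ℝ,
      HasMFDerivAt (𝓡 (k + 1)) 𝓘(ℝ, ℝ) (fun q : Pr Y => (un q).1) (lft F (mk (t, x))) T :=
    ⟨_, hT.hasMFDerivAt⟩
  obtain ⟨V, gV⟩ : ∃ V : ℝ →L[ℝ] E (k + 1),
      HasMFDerivAt 𝓘(ℝ, ℝ) (𝓡 (k + 1)) (fun s : ℝ => mk (s, x)) t V := ⟨_, hV.hasMFDerivAt⟩
  have e1 : HasMFDerivAt (𝓡 k) (𝓡 k) (fun x => F (t, x)) x (S.comp (A.comp J)) :=
    HasMFDerivAt.comp (f := lft F ∘ fun x : X => mk (t, x)) x gS (HasMFDerivAt.comp x gA gJ)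
  have e2 : HasMFDerivAt (𝓡 k) 𝓘(ℝ, ℝ) (fun _ : X => t) x (T.comp (A.comp J)) :=
    HasMFDerivAt.comp (f := lft F ∘ fun x : X => mk (t, x)) x gT (HasMFDerivAt.comp x gA gJ)
  have e3 : HasMFDerivAt 𝓘(ℝ, ℝ) 𝓘(ℝ, ℝ) (fun s : ℝ => s) t (T.comp (A.comp V)) :=
    HasMFDerivAt.comp (f := lft F ∘ fun s : ℝ => mk (s, x)) t gT (HasMFDerivAt.comp t gA gV)
  have e2' : T.comp (A.comp J) = 0 := hasMFDerivAt_unique e2 (hasMFDerivAt_const t x)
  have e3' : T.comp (A.comp V) = ContinuousLinearMap.id ℝ ℝ :=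
    hasMFDerivAt_unique e3 (hasMFDerivAt_id _)
  have h1 := rk A.toLinearMap J.toLinearMap S.toLinearMap T.toLinearMap (V (1 : ℝ))
    (fun z => congrArg (fun L : E k →L[ℝ] ℝ => L z) e2')
    (fun h => one_ne_zero (α := ℝ) ((congrArg (fun L : ℝ →L[ℝ] ℝ => L (1 : ℝ)) e3').symm.trans h))
  have h2 : rkn k k (mfderiv (𝓡 k) (𝓡 k) (fun x => F (t, x)) x) = rkn k k (S.comp (A.comp J)) :=
    congrArg (rkn k k) e1.mfderiv
  have h3 : rkn (k + 1) (k + 1) (mfderiv (𝓡 (k + 1)) (𝓡 (k + 1)) (lft F) (mk (t, x))) =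
      rkn (k + 1) (k + 1) A := congrArg (rkn (k + 1) (k + 1)) eA
  have h4 : rkn k k (S.comp (A.comp J)) + 1 ≤ rkn (k + 1) (k + 1) A := h1
  rw [← h2, ← h3] at h4
  exact h4

end

/-- COI -/
theorem coi (h : StCOL) : StCOI := by
  intro m X Y _ _ _ _ _ _ _ _ _ f hf hb hr h0 h1
  obtain ⟨F, hFd⟩ : ∃ F : ℝ × X → Y, F = fun q => f (Real.smoothTransition q.1, q.2) := ⟨_, rfl⟩
  have hFs : ContMDiff ((𝓘(ℝ, ℝ)).prod (𝓡 (m + 1))) (𝓡 (m + 1)) ∞ F := by
    rw [hFd]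
    have h2 : ContMDiff 𝓘(ℝ, ℝ) 𝓘(ℝ, ℝ) ∞ Real.smoothTransition :=
      Real.smoothTransition.contDiff.contMDiff
    exact hf.comp ((h2.comp contMDiff_fst).prodMk contMDiff_snd)
  have hFb : ∀ t, Bijective fun x => F (t, x) := fun t => by
    rw [hFd]
    exact hb (Real.smoothTransition t)
  have hLb := bij_lft hFb
  have hLs : ContMDiff (𝓡 (m + 1 + 1)) (𝓡 (m + 1 + 1)) ∞ (lft F) := smooth_lft hFs
  have hLc : IsClosedMap (lft F) := by
    have h2 : IsProperMap ((fun p : Pr Y => (un p).1) ∘ lft F) :=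
      (isProperMap_fst_of_compactSpace : IsProperMap (Prod.fst : ℝ × X → ℝ))
    exact (isProperMap_of_comp_of_t2 hLs.continuous
      (continuous_fst.comp cont_un) h2).isClosedMap
  obtain ⟨H, hH⟩ : ∃ H : Pr X ≃ₜ Pr Y, (H : Pr X → Pr Y) = lft F :=
    ⟨(Equiv.ofBijective (lft F) hLb).toHomeomorphOfContinuousClosed hLs.continuous hLc, rfl⟩
  have hlev : ∀ p, (un (H p)).1 = (un p).1 := fun p => by rw [hH]; rfl
  -- the bad set
  have hcpt : IsCompact {p | ¬ LD (m + 1 + 1) H p} := by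
    have hK : IsCompact {p : Pr X | (un p).1 ∈ Icc (0 : ℝ) 1} := by
      have h2 : IsCompact ((Icc (0 : ℝ) 1) ×ˢ (univ : Set X)) := isCompact_Icc.prod isCompact_univ
      have h3 : {p : Pr X | (un p).1 ∈ Icc (0 : ℝ) 1} = mk '' ((Icc (0 : ℝ) 1) ×ˢ (univ : Set X)) := by
        ext p
        constructor
        · intro hp
          exact ⟨un p, ⟨hp, mem_univ _⟩, rfl⟩
        · rintro ⟨q, hq, rfl⟩
          exact hq.1
      rw [h3]
      exact h2.image cont_mk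
    refine hK.of_isClosed_subset ?_ ?_
    · rw [← isOpen_compl_iff, isOpen_iff_mem_nhds]
      intro p hp
      have hp' : LD (m + 1 + 1) H p := not_not.1 hp
      filter_upwards [hp'.eventually] with q hq
      exact not_not.2 hq
    · intro p hp
      by_contra hn
      apply hp
      have hn' : (un p).1 < 0 ∨ 1 < (un p).1 := by
        by_contra hc
        push Not at hc
        exact hn ⟨hc.1, hc.2⟩
      rcases hn' with hn' | hn'
      · refine (LD_const (hb 0) h0 p).congr ?_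
        have h3 : ∀ᶠ q : Pr X in 𝓝 p, (un q).1 < 0 :=
          (continuous_fst.comp cont_un).continuousAt.eventually (gt_mem_nhds hn')
        filter_upwards [h3] with q hq
        rw [hH, hFd]
        change mk ((un q).1, f (Real.smoothTransition (un q).1, (un q).2)) = mk ((un q).1, f (0, (un q).2))
        rw [Real.smoothTransition.zero_of_nonpos hq.le]
      · refine (LD_const (hb 1) h1 p).congr ?_
        have h3 : ∀ᶠ q : Pr X in 𝓝 p, 1 < (un q).1 :=
          (continuous_fst.comp cont_un).continuousAt.eventually (lt_mem_nhds hn')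
        filter_upwards [h3] with q hq
        rw [hH, hFd]
        change mk ((un q).1, f (Real.smoothTransition (un q).1, (un q).2)) = mk ((un q).1, f (1, (un q).2))
        rw [Real.smoothTransition.one_of_one_le hq.le]
  obtain ⟨f', C, hC, hb', hld', hτ', heq'⟩ := h (m + 1) (Pr X) (Pr Y) H (fun p => (un p).1)
    (by rw [hH]; exact hLs) smooth_hgt
    (by
      intro p
      have : (fun x => (un (H x)).1) = fun p : Pr X => (un p).1 := funext hlev
      rw [this]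
      exact mf_hgt p)
    (by
      intro p
      have h2 := mf_rank hFs (un p).1 (un p).2
      have h3 := hr (Real.smoothTransition (un p).1) (un p).2
      rw [hH]
      refine le_trans (Nat.add_le_add_right ?_ 1) h2
      rw [hFd]
      exact h3)
    hcpt
  have hlev' : ∀ p, (un (f' p)).1 = (un p).1 := fun p => (hτ' p).trans (hlev p)
  have hs' : ContMDiff (𝓡 (m + 1 + 1)) (𝓡 (m + 1 + 1)) ∞ f' := fun p => (hld' p).contMDiffAt
  obtain ⟨R, hR1, hRC⟩ : ∃ R : ℝ, 1 ≤ R ∧ ∀ p ∈ C, |(un p).1| < R := by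
    have h2 : IsCompact ((fun p : Pr X => (un p).1) '' C) :=
      hC.image (continuous_fst.comp cont_un)
    obtain ⟨R, hR⟩ := h2.isBounded.subset_closedBall 0
    refine ⟨|R| + 1, by linarith [abs_nonneg R], fun p hp => ?_⟩
    have h3 := hR ⟨p, hp, rfl⟩
    rw [Metric.mem_closedBall, Real.dist_eq, sub_zero] at h3
    exact (h3.trans (le_abs_self R)).trans_lt (lt_add_one _)
  refine ⟨fun q => (un (f' (mk (-R + 2 * R * q.1, q.2)))).2, ?_, ?_, ?_, ?_, ?_⟩
  · have h2 : ContMDiff 𝓘(ℝ, ℝ) 𝓘(ℝ, ℝ) ∞ (fun s : ℝ => -R + 2 * R * s) := by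
      have : ContDiff ℝ ∞ (fun s : ℝ => -R + 2 * R * s) := by fun_prop
      exact this.contMDiff
    have h3 : ContMDiff ((𝓘(ℝ, ℝ)).prod (𝓡 (m + 1))) (𝓡 (m + 1 + 1)) ∞
        (fun q : ℝ × X => mk (-R + 2 * R * q.1, q.2)) :=
      (smooth_mk (X := X)).comp ((h2.comp contMDiff_fst).prodMk contMDiff_snd)
    exact (smooth_snd (X := Y)).comp (hs'.comp h3)
  · intro t
    constructor
    · intro x x' hxx
      have h2 : f' (mk (-R + 2 * R * t, x)) = f' (mk (-R + 2 * R * t, x')) := by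
        apply un_inj
        refine Prod.ext ?_ hxx
        rw [hlev', hlev']
        rfl
      have h3 := hb'.1 h2
      exact congrArg (fun r : Pr X => (un r).2) h3
    · intro y
      obtain ⟨p, hp⟩ := hb'.2 (mk (-R + 2 * R * t, y))
      refine ⟨(un p).2, ?_⟩
      have h2 : (un p).1 = -R + 2 * R * t := by
        rw [← hlev', hp]
        rfl
      have h3 : mk (-R + 2 * R * t, (un p).2) = p := by
        apply un_inj
        exact Prod.ext h2.symm rfl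
      change (un (f' (mk (-R + 2 * R * t, (un p).2)))).2 = y
      rw [h3, hp]
      rfl
  · intro t x
    exact LD_slice hb' hld' hlev' (-R + 2 * R * t) x
  · intro x
    have h2 : mk (-R + 2 * R * (0 : ℝ), x) ∉ C := fun hc => by
      have h3 := hRC _ hc
      change |-R + 2 * R * 0| < R at h3
      rw [mul_zero, add_zero, abs_neg] at h3
      exact absurd (le_abs_self R) (not_le.2 h3)
    change (un (f' (mk (-R + 2 * R * 0, x)))).2 = _
    rw [heq' _ h2, hH, hFd]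
    change f (Real.smoothTransition (-R + 2 * R * 0), x) = _
    rw [Real.smoothTransition.zero_of_nonpos (by linarith)]
  · intro x
    have h2 : mk (-R + 2 * R * (1 : ℝ), x) ∉ C := fun hc => by
      have h3 := hRC _ hc
      change |-R + 2 * R * 1| < R at h3
      have h4 : -R + 2 * R * 1 = R := by ring
      rw [h4] at h3
      exact absurd (le_abs_self R) (not_le.2 h3)
    change (un (f' (mk (-R + 2 * R * 1, x)))).2 = _
    rw [heq' _ h2, hH, hFd]
    change f (Real.smoothTransition (-R + 2 * R * 1), x) = _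
    rw [Real.smoothTransition.one_of_one_le (by linarith)]

end Pool.Agent.Y434.CI
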