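import Pool.Agent.Y522.NA.StmC

/-! Project CI (helper522): the product `ℝ × X` as a manifold modelled on `E (k+1)` (helper434). -/

set_option autoImplicit false

open Set Filter Topology Function
open scoped Manifold ContDiff

noncomputable section

namespace Pool.Agent.Y434.CI

open Pool.Agent.Y522 Pool.Agent.Y522.NA

/-- `ℝ × E k ≃ E (k + 1)` -/
def el (k : ℕ) : (ℝ × E k) ≃L[ℝ] E (k + 1) :=
  LinearEquiv.toContinuousLinearEquiv
    { toFun := fun p => cn p.1 p.2
      invFun := fun z => (z 0, tl z)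
      map_add' := fun x y => by
        ext i
        refine Fin.cases ?_ (fun i => ?_) i <;> simp
      map_smul' := fun c x => by
        ext i
        refine Fin.cases ?_ (fun i => ?_) i <;> simp
      left_inv := fun p => by simp
      right_inv := fun z => by simp }

/-- the product -/
def Pr (X : Type) : Type := ℝ × X

section

variable {X : Type}

instance [TopologicalSpace X] : TopologicalSpace (Pr X) := inferInstanceAs (TopologicalSpace (ℝ × X))
instance [TopologicalSpace X] [T2Space X] : T2Space (Pr X) := inferInstanceAs (T2Space (ℝ × X))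

/-- into the product -/
def mk (p : ℝ × X) : Pr X := p

/-- out of the product -/
def un (p : Pr X) : ℝ × X := p

@[simp] theorem un_mk (p : ℝ × X) : un (mk p) = p := rfl
@[simp] theorem mk_un (p : Pr X) : mk (un p) = p := rfl

theorem un_inj {p q : Pr X} (h : un p = un q) : p = q := h

theorem cont_mk [TopologicalSpace X] : Continuous (mk : ℝ × X → Pr X) := continuous_id
theorem cont_un [TopologicalSpace X] : Continuous (un : Pr X → ℝ × X) := continuous_id

variable {k : ℕ} [TopologicalSpace X]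

/-- the charts -/
def ch (χ : OpenPartialHomeomorph X (E k)) : OpenPartialHomeomorph (Pr X) (E (k + 1)) :=
  (((OpenPartialHomeomorph.refl ℝ).prod χ : OpenPartialHomeomorph (ℝ × X) (ℝ × E k)) ≫ₕ
    (el k).toHomeomorph.toOpenPartialHomeomorph : OpenPartialHomeomorph (ℝ × X) (E (k + 1)))

theorem ch_source (χ : OpenPartialHomeomorph X (E k)) (p : Pr X) :
    p ∈ (ch χ).source ↔ (un p).2 ∈ χ.source := by
  unfold ch
  change (un p) ∈ (((OpenPartialHomeomorph.refl ℝ).prod χ) ≫ₕ
    (el k).toHomeomorph.toOpenPartialHomeomorph).source ↔ _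
  simp

theorem ch_apply (χ : OpenPartialHomeomorph X (E k)) (p : Pr X) :
    ch χ p = cn (un p).1 (χ (un p).2) := rfl

theorem ch_symm (χ : OpenPartialHomeomorph X (E k)) (z : E (k + 1)) :
    (ch χ).symm z = mk (z 0, χ.symm (tl z)) := rfl

theorem ch_target (χ : OpenPartialHomeomorph X (E k)) (z : E (k + 1)) :
    z ∈ (ch χ).target ↔ tl z ∈ χ.target := by
  unfold ch
  change z ∈ (((OpenPartialHomeomorph.refl ℝ).prod χ) ≫ₕ
    (el k).toHomeomorph.toOpenPartialHomeomorph).target ↔ _
  simp
  rfl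

instance [ChartedSpace (E k) X] : ChartedSpace (E (k + 1)) (Pr X) where
  atlas := {e | ∃ χ ∈ atlas (E k) X, e = ch χ}
  chartAt p := ch (chartAt (E k) (un p).2)
  mem_chart_source p := by
    rw [ch_source]
    exact mem_chart_source _ _
  chart_mem_atlas p := ⟨_, chart_mem_atlas _ _, rfl⟩

theorem contDiff_cn : ContDiff ℝ ∞ (fun p : ℝ × E k => (cn p.1 p.2 : E (k + 1))) :=
  (el k).contDiff

theorem contDiff_hd : ContDiff ℝ ∞ (fun z : E (k + 1) => z 0) := by fun_prop

instance instMan [ChartedSpace (E k) X] [IsManifold (𝓡 k) ∞ X] :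
    IsManifold (𝓡 (k + 1)) ∞ (Pr X) := by
  apply isManifold_of_contDiffOn
  rintro _ _ ⟨χ, hχ, rfl⟩ ⟨χ', hχ', rfl⟩
  have h1 : ContDiffOn ℝ ∞ (χ.symm ≫ₕ χ') (χ.symm ≫ₕ χ').source := by
    have h2 := (contDiffGroupoid ∞ (𝓡 k)).compatible hχ hχ'
    have h3 := (contDiffGroupoid ∞ (𝓡 k)).compatible hχ hχ'
    rw [contDiffGroupoid, mem_groupoid_of_pregroupoid] at h2
    have h4 := h2.1
    simpa [contDiffPregroupoid] using h4
  have h5 : ContDiffOn ℝ ∞ (fun z : E (k + 1) => cn (z 0) ((χ.symm ≫ₕ χ') (tl z)))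
      {z | tl z ∈ (χ.symm ≫ₕ χ').source} := by
    have h6 : ContDiffOn ℝ ∞ (fun z : E (k + 1) => (z 0, (χ.symm ≫ₕ χ') (tl z)))
        {z | tl z ∈ (χ.symm ≫ₕ χ').source} :=
      contDiff_hd.contDiffOn.prodMk (h1.comp (tl (m := k)).contDiff.contDiffOn fun z hz => hz)
    exact contDiff_cn.comp_contDiffOn h6
  refine h5.mono ?_
  intro z hz
  have hz1 := hz.1
  simp only [modelWithCornersSelf_coe_symm, preimage_id_eq, id_eq,
    OpenPartialHomeomorph.trans_source, OpenPartialHomeomorph.symm_source, mem_inter_iff,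
    mem_preimage] at hz1
  refine ⟨(ch_target χ z).1 hz1.1, ?_⟩
  have := (ch_source χ' _).1 hz1.2
  rwa [ch_symm] at this

end

end Pool.Agent.Y434.CI
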